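import Pool.Agent.Work.MP_dcf6a6_c1.Basic

namespace Pool.C1.helper28

open Polynomial

variable {J B : Type} [Fintype J] [Fintype B] [DecidableEq J] [DecidableEq B]

theorem exists_q (D : BData J B) (Bad : Finset ℂ) :
    ∃ q : ℂ, q ∉ Bad ∧ ∀ b, D.al b * q + D.be b ≠ 0 := by
  obtain ⟨q, hq⟩ := Infinite.exists_notMem_finset
    (Bad ∪ Finset.univ.image (fun b => - D.be b / D.al b))
  rw [Finset.mem_union, not_or] at hq
  refine ⟨q, hq.1, fun b hb => ?_⟩
  by_cases ha : D.al b = 0
  · rw [ha, zero_mul, zero_add] at hb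
    obtain ⟨b1, b2, h12⟩ := D.exists_pair
    have : ∃ b', b ≠ b' := by
      by_cases h : b = b1
      · exact ⟨b2, by rw [h]; exact h12⟩
      · exact ⟨b1, h⟩
    obtain ⟨b', hb'⟩ := this
    apply D.indep b b' hb'
    rw [ha, hb, zero_mul, mul_zero]
  · apply hq.2
    refine Finset.mem_image.mpr ⟨b, Finset.mem_univ b, ?_⟩
    rw [div_eq_iff ha]
    linear_combination -hb

theorem stmt_CONST : Stmt_CONST := by
  intro J B _ _ _ _ D Bad
  obtain ⟨q, hq, hqb⟩ := exists_q D Bad
  obtain ⟨s, hs⟩ := D.exists_section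
  have hroot : ∀ b, ∃ t : ℂ, t ^ D.l (s b) = D.al b * q + D.be b := fun b =>
    IsAlgClosed.exists_pow_nat_eq _ (D.l_pos (s b))
  choose t ht using hroot
  have ht0 : ∀ b, t b ≠ 0 := by
    intro b h0
    apply hqb b
    rw [← ht b, h0, zero_pow (D.l_pos (s b)).ne']
  let w : J → ℂ := fun j => if j = s (D.bl j) then t (D.bl j) else 1
  have hw0 : ∀ j, w j ≠ 0 := by
    intro j
    show (if j = s (D.bl j) then t (D.bl j) else 1) ≠ 0
    split_ifs
    · exact ht0 _
    · exact one_ne_zero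
  have hws : ∀ b, w (s b) = t b := by
    intro b
    show (if s b = s (D.bl (s b)) then t (D.bl (s b)) else 1) = t b
    rw [hs b, if_pos rfl]
  have hwo : ∀ b, ∀ j ∈ (Finset.univ.filter fun i => D.bl i = b).erase (s b), w j = 1 := by
    intro b j hj
    rw [Finset.mem_erase, Finset.mem_filter] at hj
    show (if j = s (D.bl j) then t (D.bl j) else 1) = 1
    rw [if_neg]
    rw [hj.2.2]
    exact hj.1
  have hsm : ∀ b, s b ∈ (Finset.univ.filter fun i => D.bl i = b) := fun b =>
    Finset.mem_filter.mpr ⟨Finset.mem_univ _, hs b⟩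
  refine ⟨fun j => C (w j), C q, 1, ⟨?_, ?_, ?_, ?_, ?_⟩, ?_, ?_⟩
  · intro j
    exact natDegree_C _
  · intro j
    exact C_ne_zero.mpr (hw0 j)
  · intro b
    simp
  · intro b
    unfold BData.uu
    rw [← Finset.mul_prod_erase _ _ (hsm b), Finset.prod_eq_one]
    · simp only [hws]
      rw [mul_one, ← C_pow, ht b, C_add, C_mul, mul_one]
    · intro j hj
      simp only [hwo b j hj, C_1, one_pow]
  · intro i j _
    refine ⟨C (w i)⁻¹, 0, ?_⟩
    rw [zero_mul, add_zero, ← C_mul, inv_mul_cancel₀ (hw0 i), C_1]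
  · intro P hP
    have hP' : ∀ b, P b = C ((P b).coeff 0) := fun b =>
      eq_C_of_natDegree_le_zero (hP b)
    refine ⟨fun j => C (if j = s (D.bl j) then
      (P (D.bl j)).coeff 0 / ((D.l j : ℂ) * t (D.bl j) ^ (D.l j - 1)) else 0), 0, 0,
      fun j => (natDegree_C _).le, by simp, by simp, fun b => ?_⟩
    unfold BData.du
    rw [Finset.sum_eq_single_of_mem _ (hsm b), Finset.prod_eq_one]
    · simp only [hs b, if_true, hws]
      rw [← C_pow, ← C_mul, ← C_mul, mul_one, mul_zero, mul_zero, zero_add, zero_add]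
      conv_rhs => rw [hP' b]
      congr 1
      have h1 : (D.l (s b) : ℂ) ≠ 0 := by exact_mod_cast (D.l_pos (s b)).ne'
      have h2 : t b ^ (D.l (s b) - 1) ≠ 0 := pow_ne_zero _ (ht0 b)
      field_simp
    · intro j hj
      simp only [hwo b j hj, C_1, one_pow]
    · intro j hj hne
      have hjb := (Finset.mem_filter.mp hj).2
      have : ¬ (j = s (D.bl j)) := by rw [hjb]; exact hne
      simp only [if_neg this, C_0, mul_zero, zero_mul]
  · refine ⟨by simp, fun q' hq' h => ?_⟩
    rw [coeff_C_zero, coeff_one_zero, mul_one] at h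
    exact hq (h ▸ hq')

end Pool.C1.helper28
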