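import Pool.Agent.Work.MP_dcf6a6_c1.Basic

namespace Pool.C1.helper28

open Polynomial

variable {J B : Type} [Fintype J] [Fintype B] [DecidableEq J] [DecidableEq B]

theorem uu_scal (D : BData J B) (τ : J → ℂ[X]) (κ : J → ℂ) (μ : ℂ)
    (hκ : ∀ b, ∏ j with D.bl j = b, κ j ^ D.l j = μ) (b : B) :
    D.uu (fun j => C (κ j) * τ j) b = C μ * D.uu τ b := by
  unfold BData.uu
  simp only [mul_pow]
  rw [Finset.prod_mul_distrib, ← hκ b, map_prod]
  congr 1
  exact Finset.prod_congr rfl fun j _ => by rw [C_pow]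

theorem du_scal (D : BData J B) (τ σ : J → ℂ[X]) (κ : J → ℂ) (μ : ℂ)
    (hκ : ∀ b, ∏ j with D.bl j = b, κ j ^ D.l j = μ) (b : B) :
    D.du (fun j => C (κ j) * τ j) (fun j => C (κ j) * σ j) b = C μ * D.du τ σ b := by
  unfold BData.du
  rw [Finset.mul_sum]
  refine Finset.sum_congr rfl fun j hj => ?_
  have h1 : C μ = (C (κ j) ^ (D.l j - 1) * C (κ j)) *
      ∏ i ∈ (Finset.univ.filter fun i => D.bl i = b).erase j, C (κ i) ^ D.l i := by
    rw [← pow_succ, Nat.sub_add_cancel (D.l_pos j), ← hκ b,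
      ← Finset.mul_prod_erase _ _ hj, C_mul, map_prod, C_pow]
    congr 1
    exact Finset.prod_congr rfl fun j _ => by rw [C_pow]
  simp only [mul_pow]
  rw [Finset.prod_mul_distrib, h1]
  ring

theorem stmt_SCAL : Stmt_SCAL := by
  intro J B _ _ _ _ D c d τ u v κ μ h hκ0 hκ
  obtain ⟨b0, _, _⟩ := D.exists_pair
  have hμ : μ ≠ 0 := by
    rw [← hκ b0]
    exact Finset.prod_ne_zero_iff.mpr fun j _ => pow_ne_zero _ (hκ0 j)
  have hμC : C μ * C μ⁻¹ = (1 : ℂ[X]) := by rw [← C_mul, mul_inv_cancel₀ hμ, C_1]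
  refine ⟨⟨?_, ?_, h.bal, ?_, ?_⟩, ?_⟩
  · intro j
    rw [natDegree_C_mul (hκ0 j)]
    exact h.deg j
  · intro j
    exact mul_ne_zero (C_ne_zero.mpr (hκ0 j)) (h.ne j)
  · intro b
    rw [uu_scal D τ κ μ hκ b, h.rel b]
    ring
  · intro i j hij
    have h1 : IsUnit (C (κ i) : ℂ[X]) := isUnit_C.mpr (IsUnit.mk0 _ (hκ0 i))
    have h2 : IsUnit (C (κ j) : ℂ[X]) := isUnit_C.mpr (IsUnit.mk0 _ (hκ0 j))
    show IsCoprime (C (κ i) * τ i) (C (κ j) * τ j)
    rw [isCoprime_mul_unit_left_left h1, isCoprime_mul_unit_left_right h2]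
    exact h.cop i j hij
  · intro hR P hP
    obtain ⟨σ, p, q, h1, h2, h3, h4⟩ := hR (fun b => C μ⁻¹ * P b)
      (fun b => (natDegree_C_mul_le _ _).trans (hP b))
    refine ⟨fun j => C (κ j) * σ j, C μ * p, C μ * q,
      fun j => (natDegree_C_mul_le _ _).trans (h1 j), (natDegree_C_mul_le _ _).trans h2,
      (natDegree_C_mul_le _ _).trans h3, fun b => ?_⟩
    rw [du_scal D τ σ κ μ hκ b, h4 b]
    calc _ = C (D.al b) * (C μ * p) + C (D.be b) * (C μ * q) + (C μ * C μ⁻¹) * P b := by ring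
      _ = _ := by rw [hμC, one_mul]

end Pool.C1.helper28
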