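import Pool.Agent.Work.MP_dcf6a6_c1.Basic

namespace Pool.C1.helper28

open Polynomial

variable {J B : Type} [Fintype J] [Fintype B] [DecidableEq J] [DecidableEq B]

theorem uu_comp (D : BData J B) (τ : J → ℂ[X]) (r : ℂ[X]) (b : B) :
    D.uu (fun j => (τ j).comp r) b = (D.uu τ b).comp r := by
  unfold BData.uu
  rw [Polynomial.prod_comp]
  exact Finset.prod_congr rfl fun j _ => by rw [pow_comp]

theorem du_comp (D : BData J B) (τ σ : J → ℂ[X]) (r : ℂ[X]) (b : B) :
    D.du (fun j => (τ j).comp r) (fun j => (σ j).comp r) b = (D.du τ σ b).comp r := by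
  unfold BData.du
  rw [Polynomial.sum_comp]
  refine Finset.sum_congr rfl fun j _ => ?_
  rw [mul_comp, mul_comp, mul_comp, C_comp, pow_comp, Polynomial.prod_comp]
  congr 1
  exact Finset.prod_congr rfl fun j _ => by rw [pow_comp]

theorem natDegree_trans (f : ℂ[X]) (r : ℂ) : (f.comp (X + C r)).natDegree = f.natDegree := by
  rw [natDegree_comp, natDegree_X_add_C, mul_one]

theorem comp_comp_neg (f : ℂ[X]) (r : ℂ) : (f.comp (X + C (-r))).comp (X + C r) = f := by
  rw [comp_assoc]
  have : (X + C (-r) : ℂ[X]).comp (X + C r) = X := by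
    rw [add_comp, X_comp, C_comp, C_neg]; ring
  rw [this, comp_X]

theorem stmt_TRANS : Stmt_TRANS := by
  intro J B _ _ _ _ D c d τ u v r h
  refine ⟨⟨?_, ?_, h.bal, ?_, ?_⟩, ?_⟩
  · intro j
    rw [natDegree_trans]
    exact h.deg j
  · intro j h0
    apply h.ne j
    have h1 := congrArg (fun f => f.comp (X + C (-r))) h0
    simp only [zero_comp] at h1
    have h2 := comp_comp_neg (τ j) (-r)
    rw [neg_neg] at h2
    rw [← h2]
    exact h1
  · intro b
    rw [uu_comp, h.rel b, add_comp, mul_comp, mul_comp, C_comp, C_comp]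
  · intro i j hij
    obtain ⟨x, y, hxy⟩ := h.cop i j hij
    refine ⟨x.comp (X + C r), y.comp (X + C r), ?_⟩
    rw [← mul_comp, ← mul_comp, ← add_comp, hxy, one_comp]
  · intro hR P hP
    obtain ⟨σ, p, q, h1, h2, h3, h4⟩ := hR (fun b => (P b).comp (X + C (-r)))
      (fun b => by rw [natDegree_trans]; exact hP b)
    refine ⟨fun j => (σ j).comp (X + C r), p.comp (X + C r), q.comp (X + C r),
      fun j => by rw [natDegree_trans]; exact h1 j, by rw [natDegree_trans]; exact h2,
      by rw [natDegree_trans]; exact h3, fun b => ?_⟩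
    rw [du_comp, h4 b, add_comp, add_comp, mul_comp, mul_comp, C_comp, C_comp, comp_comp_neg]

end Pool.C1.helper28
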